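import Pool.Agent.Q57.BN.Locus

/-!
# MP_eed2ef_ag: non-containment of Brill-Noether loci outside the secant range fails

A smooth irreducible projective curve `C` over `ℂ` is described by its function field `K`
(`IsCurve K`: finitely generated over `ℂ`, of transcendence degree one); its closed points are the
normalised discrete valuations of `K/ℂ` (`Point K`), a line bundle is given by its local generators
(`LineBundle K`), `H0 L` is the space of global sections of `L`, `L.degree` its degree, and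
`genus K = dim H¹(C, 𝒪_C)` is the genus (seed library `Pool/Agent/Helper395`).
`InLocus g r d K` says that `[C] ∈ M^r_{g,d}` (`Pool/Agent/Q57/BN/Locus.lean`).
-/

namespace Pool.Agent.Results.MP_eed2ef_ag.HyperellipticContainment

open Q57.BN

/-- `M^r_{g,d}` is a Brill-Noether locus: `r ≥ 1`, `ρ(g,r,d) < 0` and it is nonempty. -/
def IsBNLocus (g : ℕ) (r d : ℤ) : Prop :=
  1 ≤ r ∧ rho g r d < 0 ∧ ∃ (K : Type) (_ : Field K) (_ : Algebra ℂ K), InLocus g r d K

/-- The statement of Q1; the division is the floor. -/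
def Statement : Prop :=
  ∃ g₀ : ℕ, ∀ g : ℕ, g₀ ≤ g → ∀ r s d e : ℤ, d ≤ g - 1 → e ≤ g - 1 → s + 1 ≤ r → 3 ≤ s + 1 →
    IsBNLocus g r d → IsBNLocus g s e → e < d - 2 * r + 2 + s + (r - 1) / 2 →
    ¬ ∀ (K : Type) [Field K] [Algebra ℂ K], InLocus g r d K → InLocus g s e K

theorem isBNLocus {g : ℕ} {r : ℤ} (hr : 1 ≤ r) (h : 2 * r ≤ g - 1) : IsBNLocus g r (2 * r) := by
  refine ⟨hr, ?_, ?_⟩
  · unfold rho
    have h1 : (g : ℤ) - (r + 1) * (g - 2 * r + r) = -(r * (g - r - 1)) := by ring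
    rw [h1]
    have h2 : 0 < r * ((g : ℤ) - r - 1) := mul_pos (by omega) (by omega)
    omega
  · obtain ⟨K, _, _, h⟩ := exists_inLocus (g := g) (by omega)
    exact ⟨K, inferInstance, inferInstance, h r (by omega)⟩

/-- Q1 is false. For all `g, r, s` with `s ≥ 2`, `2r ≤ g - 1` and `s - 2 < ⌊(r-1)/2⌋` the tuple
`(r, s, d, e) = (r, s, 2r, 2s)` satisfies all the conditions of Q1, and the (nonempty) loci
`M^r_{g,2r}` and `M^s_{g,2s}` are equal. -/
theorem result : ¬ Statement ∧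
    ∀ (g : ℕ) (r s : ℤ), 2 ≤ s → 2 * r ≤ g - 1 → s - 2 < (r - 1) / 2 →
      s + 1 ≤ r ∧ 2 * s ≤ g - 1 ∧ IsBNLocus g r (2 * r) ∧ IsBNLocus g s (2 * s) ∧
      2 * s < 2 * r - 2 * r + 2 + s + (r - 1) / 2 ∧
      ∀ (K : Type) [Field K] [Algebra ℂ K], InLocus g r (2 * r) K ↔ InLocus g s (2 * s) K := by
  have key : ∀ (g : ℕ) (r s : ℤ), 2 ≤ s → 2 * r ≤ g - 1 → s - 2 < (r - 1) / 2 →
      s + 1 ≤ r ∧ 2 * s ≤ g - 1 ∧ IsBNLocus g r (2 * r) ∧ IsBNLocus g s (2 * s) ∧
      2 * s < 2 * r - 2 * r + 2 + s + (r - 1) / 2 ∧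
      ∀ (K : Type) [Field K] [Algebra ℂ K], InLocus g r (2 * r) K ↔ InLocus g s (2 * s) K := by
    intro g r s hs hg hrs
    refine ⟨by omega, by omega, isBNLocus (by omega) hg, isBNLocus (by omega) (by omega), by omega,
      ?_⟩
    intro K _ _
    exact ⟨fun h => hasSeries_of_hasSeries (s := s) (by omega) hg (by omega) h,
      fun h => hasSeries_of_hasSeries (r := s) (by omega) (by omega) (by omega) h⟩
  refine ⟨?_, key⟩
  rintro ⟨g₀, h⟩
  obtain ⟨-, -, h1, h2, h3, h4⟩ := key (g₀ + 7) 3 2 le_rfl (by push_cast; omega) (by norm_num)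
  exact h (g₀ + 7) (by omega) 3 2 (2 * 3) (2 * 2) (by push_cast; omega) (by push_cast; omega)
    (by norm_num) (by norm_num) h1 h2 h3 fun K _ _ hK => (h4 K).1 hK

end Pool.Agent.Results.MP_eed2ef_ag.HyperellipticContainment
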