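import Pool.Agent.Q49.BNLoc

/-!
# Containments of Brill-Noether loci outside the secant range

For `2 ≤ s < r`, `s < 2 + ⌊(r - 1) / 2⌋`, `d ≥ 2 r` and `g > d (d - 1)` the nonempty Brill-Noether
locus `M^r_{g,d}` is contained in `M^s_{g,e}` with `e = d - 2 r + 2 s`, although
`e < d - 2 r + 2 + s + ⌊(r - 1) / 2⌋`. Here curves of genus `g` are given by their function fields `K`
(`IsCurve`, `genus` the dimension of `H¹(C, 𝒪_C)`).
-/

namespace Pool.Agent.Results.MP_eed2ef_ag.SecantRangeFails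

open Q49.BNLoc

/-- The answer to Q1 is negative: (1) there is no `g₀` as in Q1; (2) for all `2 ≤ s < r` with
`s < 2 + ⌊(r - 1) / 2⌋`, all `d ≥ 2 r` and all `g > d (d - 1)`, `r, s, d` and `e = d - 2 r + 2 s` are a
counterexample. -/
theorem result :
    (¬ ∃ g₀ : ℕ, ∀ g : ℕ, g₀ ≤ g → ∀ r s d e : ℤ, d ≤ g - 1 → e ≤ g - 1 → s + 1 ≤ r →
      3 ≤ s + 1 → rho g r d < 0 → LocusNonempty g r d → rho g s e < 0 → LocusNonempty g s e →
      e < d - 2 * r + 2 + s + (r - 1) / 2 → ¬ Contained g r d s e) ∧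
    (∀ r s d g : ℕ, 2 ≤ s → s < r → s < 2 + (r - 1) / 2 → 2 * r ≤ d → d * (d - 1) < g →
      (d : ℤ) ≤ g - 1 ∧ (d : ℤ) - 2 * r + 2 * s ≤ g - 1 ∧
      rho g r d < 0 ∧ LocusNonempty g r d ∧
      rho g s ((d : ℤ) - 2 * r + 2 * s) < 0 ∧ LocusNonempty g s ((d : ℤ) - 2 * r + 2 * s) ∧
      (d : ℤ) - 2 * r + 2 * s < d - 2 * r + 2 + s + ((r : ℤ) - 1) / 2 ∧
      Contained g r d s ((d : ℤ) - 2 * r + 2 * s)) := by
  have main : ∀ r s d g : ℕ, 2 ≤ s → s < r → s < 2 + (r - 1) / 2 → 2 * r ≤ d → d * (d - 1) < g →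
      (d : ℤ) ≤ g - 1 ∧ (d : ℤ) - 2 * r + 2 * s ≤ g - 1 ∧
      rho g r d < 0 ∧ LocusNonempty g r d ∧
      rho g s ((d : ℤ) - 2 * r + 2 * s) < 0 ∧ LocusNonempty g s ((d : ℤ) - 2 * r + 2 * s) ∧
      (d : ℤ) - 2 * r + 2 * s < d - 2 * r + 2 + s + ((r : ℤ) - 1) / 2 ∧
      Contained g r d s ((d : ℤ) - 2 * r + 2 * s) := by
    intro r s d g hs hsr hsr' hd hg
    have h5 : 5 * d ≤ d * (d - 1) := by
      rw [mul_comm]
      exact Nat.mul_le_mul_left d (by omega)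
    have hc := contained (g := g) (r := r) (s := s) (d := d) (by omega) hg
    have he : (d : ℤ) - 2 * ((r : ℤ) - s) = d - 2 * r + 2 * s := by ring
    rw [he] at hc
    have hne := nonempty_locus (g := g) (r := s) (d := d - 2 * r + 2 * s) (by omega) (by omega)
    have he2 : ((d - 2 * r + 2 * s : ℕ) : ℤ) = (d : ℤ) - 2 * r + 2 * s := by omega
    rw [he2] at hne
    exact ⟨by omega, by omega, rho_neg (by omega) (by omega) (by omega),
      nonempty_locus (by omega) hd, rho_neg (by omega) (by omega) (by omega), hne, by omega, hc⟩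
  refine ⟨?_, main⟩
  rintro ⟨g₀, h⟩
  obtain ⟨h1, h2, h3, h4, h5, h6, h7, h8⟩ :=
    main 3 2 6 (g₀ + 31) (by omega) (by omega) (by omega) (by omega) (by omega)
  exact h (g₀ + 31) (by omega) (3 : ℕ) (2 : ℕ) (6 : ℕ) _ h1 h2 (by norm_num) (by norm_num) h3 h4 h5
    h6 h7 h8

end Pool.Agent.Results.MP_eed2ef_ag.SecantRangeFails
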